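import Pool.Agent.Helper10.RC.Basic

/-!
# MP_b55b7c_an: Kaplansky density for the representation of a tracial state
-/

open scoped ENNReal NNReal InnerProductSpace ComplexOrder
open Filter Topology

attribute [-instance] CStarMatrix.instAlgebra CStarMatrix.instModule CStarMatrix.instSMul
  CStarMatrix.instMulAction CStarMatrix.instDistribMulAction

noncomputable section
namespace RC
universe u

section gen
variable {D : Type u} [CStarAlgebra D]

theorem kap_star_mul (y : D) (f : ℝ → ℝ) (hf : ContinuousOn f (spectrum ℝ (star y * y))) :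
    star (y * cfc f (star y * y)) * (y * cfc f (star y * y)) =
      cfc (fun t => t * f t ^ 2) (star y * y) := by
  set a := star y * y with ha
  have hsa : IsSelfAdjoint a := IsSelfAdjoint.star_mul_self y
  have h1 : star (cfc f a) = cfc f a := (cfc_predicate f a : IsSelfAdjoint (cfc f a))
  rw [star_mul, h1]
  calc cfc f a * star y * (y * cfc f a) = cfc f a * a * cfc f a := by rw [ha]; noncomm_ring
    _ = cfc f a * cfc (fun t : ℝ => t) a * cfc f a := by rw [cfc_id' ℝ a]
    _ = cfc (fun t => f t * t) a * cfc f a := by rw [← cfc_mul f (fun t => t) a]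
    _ = cfc (fun t => f t * t * f t) a := by rw [← cfc_mul (fun t => f t * t) f a]
    _ = _ := by
      congr 1
      ext t
      ring

theorem kap_norm_le (y : D) (f : ℝ → ℝ) (hf : ContinuousOn f (spectrum ℝ (star y * y))) (c : ℝ)
    (hc : 0 ≤ c) (h : ∀ t ∈ spectrum ℝ (star y * y), 0 ≤ t → t * f t ^ 2 ≤ c ^ 2) :
    ‖y * cfc f (star y * y)‖ ≤ c := by
  have h1 := CStarRing.norm_star_mul_self (x := y * cfc f (star y * y))
  rw [kap_star_mul y f hf] at h1
  have h2 : ‖cfc (fun t => t * f t ^ 2) (star y * y)‖ ≤ c ^ 2 := by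
    refine norm_cfc_le (by positivity) fun t ht => ?_
    have h0 := spectrum_star_mul_self_nonneg t ht
    rw [Real.norm_eq_abs, abs_of_nonneg (by positivity)]
    exact h t ht h0
  rw [h1] at h2
  nlinarith [norm_nonneg (y * cfc f (star y * y))]

/-- The inverse of `1 + y* y`. -/
def kapInv (y : D) : D := cfc (fun t : ℝ => (1 + t)⁻¹) (star y * y)

theorem kap_inv_cont (y : D) :
    ContinuousOn (fun t : ℝ => (1 + t)⁻¹) (spectrum ℝ (star y * y)) := by
  refine ContinuousOn.inv₀ (by fun_prop) fun t ht => ?_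
  have h0 := spectrum_star_mul_self_nonneg t ht
  positivity

theorem kap_one_add_mul_inv (y : D) : (1 + star y * y) * kapInv y = 1 := by
  have hsa : IsSelfAdjoint (star y * y) := IsSelfAdjoint.star_mul_self y
  have h1 : (1 + star y * y : D) = cfc (fun t : ℝ => 1 + t) (star y * y) := by
    rw [cfc_const_add 1 (fun t => t) (star y * y), cfc_id' ℝ (star y * y), map_one]
  have hc := kap_inv_cont y
  unfold kapInv
  nth_rewrite 1 [h1]
  rw [← cfc_mul (fun t : ℝ => 1 + t) (fun t : ℝ => (1 + t)⁻¹) (star y * y) (by fun_prop) hc]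
  rw [← cfc_one ℝ (star y * y)]
  refine cfc_congr fun t ht => ?_
  have h0 := spectrum_star_mul_self_nonneg t ht
  have : 1 + t ≠ 0 := by positivity
  simp [this]

theorem kap_inv_mul_one_add (y : D) : kapInv y * (1 + star y * y) = 1 := by
  have h := cfc_commute_cfc (fun t : ℝ => (1 + t)⁻¹) (fun t : ℝ => 1 + t) (star y * y)
  have hsa : IsSelfAdjoint (star y * y) := IsSelfAdjoint.star_mul_self y
  have h1 : (1 + star y * y : D) = cfc (fun t : ℝ => 1 + t) (star y * y) := by
    rw [cfc_const_add 1 (fun t => t) (star y * y), cfc_id' ℝ (star y * y), map_one]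
  have h2 := kap_one_add_mul_inv y
  rw [h1] at h2 ⊢
  rw [← h2]
  exact h

theorem kap_inv_norm (y : D) : ‖kapInv y‖ ≤ 1 := by
  unfold kapInv
  refine norm_cfc_le zero_le_one fun t ht => ?_
  have h0 := spectrum_star_mul_self_nonneg t ht
  rw [Real.norm_eq_abs, abs_of_nonneg (by positivity)]
  exact inv_le_one_of_one_le₀ (by linarith)

theorem kap_mul_inv_norm (y : D) : ‖y * kapInv y‖ ≤ 1 := by
  refine kap_norm_le y _ (kap_inv_cont y) 1 zero_le_one fun t ht h0 => ?_
  rw [inv_pow, ← div_eq_mul_inv, div_le_iff₀ (by positivity)]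
  nlinarith

theorem kap_mul_inv_norm2 (y : D) : ‖y * ((2 : ℝ) • kapInv y)‖ ≤ 1 := by
  have hc := kap_inv_cont y
  have h1 : (2 : ℝ) • kapInv y = cfc (fun t : ℝ => 2 * (1 + t)⁻¹) (star y * y) := by
    rw [cfc_const_mul 2 (fun t : ℝ => (1 + t)⁻¹) (star y * y) hc]
    rfl
  rw [h1]
  refine kap_norm_le y _ (by fun_prop) 1 zero_le_one fun t ht h0 => ?_
  rw [mul_pow, inv_pow, ← mul_assoc, ← div_eq_mul_inv, div_le_iff₀ (by positivity)]
  nlinarith [sq_nonneg (t - 1)]

theorem kap_inv_star_mul (y : D) : kapInv (star y) * y = y * kapInv y := by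
  have h1 := kap_one_add_mul_inv y
  have h2 := kap_inv_mul_one_add (star y)
  rw [star_star] at h2
  calc kapInv (star y) * y = kapInv (star y) * y * ((1 + star y * y) * kapInv y) := by
        rw [h1, mul_one]
    _ = (kapInv (star y) * (1 + y * star y)) * y * kapInv y := by noncomm_ring
    _ = y * kapInv y := by rw [h2, one_mul]

/-- the main identity -/
theorem kap_identity (x s : D) :
    x * kapInv x - s * kapInv s = kapInv (star x) * (x - s) * kapInv s +
      (x * kapInv x) * (star s - star x) * (s * kapInv s) := by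
  have h1 := kap_one_add_mul_inv s
  have h2 := kap_inv_mul_one_add (star x)
  rw [star_star] at h2
  calc x * kapInv x - s * kapInv s = kapInv (star x) * x * ((1 + star s * s) * kapInv s) -
        (kapInv (star x) * (1 + x * star x)) * s * kapInv s := by
        rw [h1, h2, mul_one, one_mul, kap_inv_star_mul]
    _ = kapInv (star x) * (x - s) * kapInv s +
      (kapInv (star x) * x) * (star s - star x) * (s * kapInv s) := by noncomm_ring
    _ = _ := by rw [kap_inv_star_mul]

/-- Every contraction is of the form `2 s (1 + s* s)⁻¹` with a contraction `s`. -/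
theorem kap_solve (y : D) (hy : ‖y‖ ≤ 1) :
    ∃ f : ℝ → ℝ, ContinuousOn f (spectrum ℝ (star y * y)) ∧ ‖y * cfc f (star y * y)‖ ≤ 1 ∧
      (y * cfc f (star y * y)) * ((2 : ℝ) • kapInv (y * cfc f (star y * y))) = y := by
  set a := star y * y with ha
  have hsa : IsSelfAdjoint a := IsSelfAdjoint.star_mul_self y
  have hsp : ∀ t ∈ spectrum ℝ a, 0 ≤ t ∧ t ≤ 1 := by
    intro t ht
    refine ⟨spectrum_star_mul_self_nonneg t ht, ?_⟩
    rcases subsingleton_or_nontrivial D with hD | hD
    · rw [spectrum.of_subsingleton] at ht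
      exact ht.elim
    have h1 := spectrum.norm_le_norm_of_mem ht
    rw [Real.norm_eq_abs] at h1
    have h2 : ‖a‖ ≤ 1 := by
      rw [ha, CStarRing.norm_star_mul_self]
      nlinarith [norm_nonneg y]
    exact (le_abs_self t).trans (h1.trans h2)
  set f : ℝ → ℝ := fun t => (1 + Real.sqrt (1 - t))⁻¹ with hf
  have hfc : Continuous f := by
    refine Continuous.inv₀ (by fun_prop) fun t => ?_
    have := Real.sqrt_nonneg (1 - t)
    positivity
  refine ⟨f, hfc.continuousOn, ?_, ?_⟩
  · refine kap_norm_le y f hfc.continuousOn 1 zero_le_one fun t ht h0 => ?_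
    have h1 := Real.sqrt_nonneg (1 - t)
    have h2 := Real.sq_sqrt (show 0 ≤ 1 - t by linarith [(hsp t ht).2])
    simp only [hf]
    rw [inv_pow, ← div_eq_mul_inv, div_le_iff₀ (by positivity)]
    nlinarith
  · set s := y * cfc f a with hs
    have h1 : star s * s = cfc (fun t => t * f t ^ 2) a := kap_star_mul y f hfc.continuousOn
    have hcg : Continuous (fun t : ℝ => t * f t ^ 2) := continuous_id.mul (hfc.pow 2)
    have hkey : ∀ t ∈ spectrum ℝ a, 1 + t * f t ^ 2 = 2 * f t := by
      intro t ht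
      have h1 := Real.sqrt_nonneg (1 - t)
      have h2 := Real.sq_sqrt (show 0 ≤ 1 - t by linarith [(hsp t ht).2])
      simp only [hf]
      have h3 : t = 1 - Real.sqrt (1 - t) ^ 2 := by linarith
      set w := Real.sqrt (1 - t) with hw
      have h4 : 1 + w ≠ 0 := by positivity
      field_simp
      rw [h3]
      ring
    have hfpos : ∀ t, 0 < f t := by
      intro t
      have := Real.sqrt_nonneg (1 - t)
      simp only [hf]
      positivity
    have h2 : kapInv s = cfc (fun t : ℝ => (1 + t * f t ^ 2)⁻¹) a := by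
      unfold kapInv
      rw [h1]
      have h3 : ContinuousOn (fun t : ℝ => (1 + t)⁻¹) ((fun t => t * f t ^ 2) '' spectrum ℝ a) := by
        refine ContinuousOn.inv₀ (by fun_prop) ?_
        rintro _ ⟨t, ht, rfl⟩
        simp only
        rw [hkey t ht]
        have := hfpos t
        positivity
      exact (cfc_comp' (fun t : ℝ => (1 + t)⁻¹) (fun t => t * f t ^ 2) a h3
        hcg.continuousOn).symm
    have h3 : cfc (fun t : ℝ => (1 + t * f t ^ 2)⁻¹) a = cfc (fun t : ℝ => (2 * f t)⁻¹) a :=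
      cfc_congr fun t ht => by rw [hkey t ht]
    have hc2 : Continuous (fun t : ℝ => (2 * f t)⁻¹) :=
      Continuous.inv₀ (by fun_prop) fun t => by have := hfpos t; positivity
    have h4 : (2 : ℝ) • cfc (fun t : ℝ => (2 * f t)⁻¹) a = cfc (fun t : ℝ => 2 * (2 * f t)⁻¹) a := by
      rw [cfc_const_mul 2 (fun t : ℝ => (2 * f t)⁻¹) a hc2.continuousOn]
    rw [h2, h3, h4, hs, mul_assoc, ← cfc_mul f (fun t : ℝ => 2 * (2 * f t)⁻¹) a
      hfc.continuousOn (continuous_const.mul hc2).continuousOn]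
    have h5 : cfc (fun t : ℝ => f t * (2 * (2 * f t)⁻¹)) a = 1 := by
      rw [← cfc_one ℝ a]
      refine cfc_congr fun t _ => ?_
      have := hfpos t
      simp only [Pi.one_apply]
      field_simp
    rw [h5, mul_one]

end gen

section cent
variable {H : Type u} [NormedAddCommGroup H] [InnerProductSpace ℂ H] [CompleteSpace H]

theorem kap_star_mem_cent {S : Set (H →L[ℂ] H)} (hS : ∀ x ∈ S, star x ∈ S) {x : H →L[ℂ] H}
    (hx : x ∈ S.centralizer) : star x ∈ S.centralizer := by
  intro m hm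
  have h1 := hx (star m) (hS m hm)
  have h2 := congrArg star h1
  rw [star_mul, star_mul, star_star] at h2
  exact h2.symm

theorem kap_sub_mem_cent {S : Set (H →L[ℂ] H)} {x y : H →L[ℂ] H}
    (hx : x ∈ S.centralizer) (hy : y ∈ S.centralizer) : x - y ∈ S.centralizer := by
  intro m hm
  rw [mul_sub, sub_mul, hx m hm, hy m hm]

theorem kap_cfc_mem_cent {S : Set (H →L[ℂ] H)} {x : H →L[ℂ] H}
    (hx : x ∈ S.centralizer) (f : ℝ → ℝ) : cfc f x ∈ S.centralizer := by
  intro m hm
  have h1 : Commute x m := (hx m hm).symm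
  exact (h1.cfc_real f).symm.eq

theorem kap_inv_mem_cent {S : Set (H →L[ℂ] H)} (hS : ∀ x ∈ S, star x ∈ S) {x : H →L[ℂ] H}
    (hx : x ∈ S.centralizer) : kapInv x ∈ S.centralizer :=
  kap_cfc_mem_cent (Set.mul_mem_centralizer (kap_star_mem_cent hS hx) hx) _

end cent

/-- Kaplansky density. -/
theorem kapP (h : RepFVP.{u}) (h2 : TwoNormP.{u}) : KapP.{u} := by
  intro A _ _ _ φ H _ _ _ π ρ ξ hrep T hT hTn ε hε
  obtain ⟨hFV, hπ⟩ := h A φ H π ρ ξ hrep
  obtain ⟨hst, hmul⟩ := h2 H (Set.range ρ) ξ hFV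
  obtain ⟨f, hf, hs1, hs2⟩ := kap_solve T hTn
  set S := T * cfc f (star T * T) with hS
  have hSN : S ∈ (Set.range ρ).centralizer :=
    Set.mul_mem_centralizer hT (kap_cfc_mem_cent
      (Set.mul_mem_centralizer (kap_star_mem_cent hFV.star hT) hT) f)
  obtain ⟨_, hx₀, x₀, rfl⟩ := Metric.dense_iff.mp hrep.dense (S ξ) (ε / 5) (by positivity)
  rw [Metric.mem_ball, dist_eq_norm] at hx₀
  simp only at hx₀
  set X := π x₀ with hX
  have hXN : X ∈ (Set.range ρ).centralizer := hπ x₀
  have hmap : π (kapInv x₀) = kapInv X := by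
    unfold kapInv
    rw [StarAlgHom.map_cfc π _ _ (kap_inv_cont x₀) (by fun_prop) (IsSelfAdjoint.star_mul_self x₀)
      (by rw [map_mul, map_star]; exact IsSelfAdjoint.star_mul_self _), map_mul, map_star]
  refine ⟨x₀ * ((2 : ℝ) • kapInv x₀), kap_mul_inv_norm2 x₀, ?_⟩
  have hπx : π (x₀ * ((2 : ℝ) • kapInv x₀)) = X * ((2 : ℝ) • kapInv X) := by
    rw [map_mul, ← hmap, two_smul, two_smul, map_add]
  have h1 : π (x₀ * ((2 : ℝ) • kapInv x₀)) - T = (2 : ℝ) • (X * kapInv X - S * kapInv S) := by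
    rw [hπx]
    conv_lhs => rw [← hs2]
    rw [smul_sub, mul_smul_comm, mul_smul_comm]
  have h3 : π (x₀ * ((2 : ℝ) • kapInv x₀)) ξ - T ξ =
      (2 : ℝ) • ((kapInv (star X) * (X - S) * kapInv S) ξ +
        ((X * kapInv X) * (star S - star X) * (S * kapInv S)) ξ) := by
    rw [← sub_apply, h1, kap_identity]
    rfl
  rw [h3, norm_smul]
  have n1 : ‖(kapInv (star X) * (X - S) * kapInv S) ξ‖ ≤ 1 * 1 * ‖(X - S) ξ‖ := by
    refine (hmul _ (kap_inv_mem_cent hFV.star (kap_star_mem_cent hFV.star hXN)) _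
      (kap_sub_mem_cent hXN hSN) _ (kap_inv_mem_cent hFV.star hSN)).trans ?_
    gcongr
    · exact kap_inv_norm _
    · exact kap_inv_norm _
  have n2 : ‖((X * kapInv X) * (star S - star X) * (S * kapInv S)) ξ‖ ≤
      1 * 1 * ‖(star S - star X) ξ‖ := by
    refine (hmul _ (Set.mul_mem_centralizer hXN (kap_inv_mem_cent hFV.star hXN)) _
      (kap_sub_mem_cent (kap_star_mem_cent hFV.star hSN) (kap_star_mem_cent hFV.star hXN)) _
      (Set.mul_mem_centralizer hSN (kap_inv_mem_cent hFV.star hSN))).trans ?_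
    gcongr
    · exact kap_mul_inv_norm _
    · exact kap_mul_inv_norm _
  have n3 : ‖(star S - star X) ξ‖ = ‖(X - S) ξ‖ := by
    rw [← star_sub, hst _ (kap_sub_mem_cent hSN hXN), sub_apply,
      sub_apply, norm_sub_rev]
  have n4 : ‖(X - S) ξ‖ < ε / 5 := by
    rw [sub_apply]
    exact hx₀
  rw [n3] at n2
  rw [Real.norm_ofNat]
  have n5 := norm_add_le ((kapInv (star X) * (X - S) * kapInv S) ξ)
    (((X * kapInv X) * (star S - star X) * (S * kapInv S)) ξ)
  linarith

end RC
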